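import Pool.Agent.Helper228.Gain2.D

open scoped ENNReal
open MeasureTheory Set

namespace Pool.Agent.Results.MP_c1e612_an.UniformGain

open Pool.Agent.Helper228.Gain2

theorem result : ∃ (X Y : Type) (_ : NormedAddCommGroup X) (_ : NormedSpace ℝ X)
    (_ : CompleteSpace X) (_ : NormedAddCommGroup Y) (_ : NormedSpace ℝ Y) (_ : CompleteSpace Y)
    (S : X →L[ℝ] Y) (F : Set X),
    F.Nonempty ∧ Convex ℝ F ∧ (∀ f ∈ F, -f ∈ F) ∧
    (∀ n : ℕ, 0 < detErr S F n ∧ detErr S F n < ⊤) ∧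
    (∀ n : ℕ, 1 ≤ n → ENNReal.ofReal (1 / (2 * (1 + 3 * Real.log n) ^ 2)) ≤ detErr S F n) ∧
    (∃ C : ℝ, 0 < C ∧ ∀ n n' : ℕ, 1 ≤ n → n ≤ n' →
      ranErr S F n' ≤ ENNReal.ofReal (C * Real.exp (Real.sqrt (Real.log n)) / n)
        * detErr S F n) ∧
    (∀ α : ℝ, α < 1 → ∃ C : ℝ, 0 < C ∧ ∀ n : ℕ, 1 ≤ n →
      ranErr S F n ≤ ENNReal.ofReal (C * (n : ℝ) ^ (-α)) * detErr S F n ∧
      ranErr S F (2 * n) ≤ ENNReal.ofReal (C * (n : ℝ) ^ (-α)) * detErr S F n) := by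
  refine ⟨Pool.Agent.Helper228.Gain.BX, Pool.Agent.Helper228.Gain.BX, inferInstance,
    inferInstance, inferInstance, inferInstance, inferInstance, inferInstance,
    ContinuousLinearMap.id ℝ _, Pool.Agent.Helper228.Gain.FS sB rB mB, ?_,
    Pool.Agent.Helper228.Gain.FS_convex _ _ _, Pool.Agent.Helper228.Gain.FS_symm _ _ _,
    fun n => ⟨det_pos n, (det_le n).trans_lt ENNReal.ofReal_lt_top⟩, ?_,
    ⟨4436 * 432 ^ 3, by norm_num, fun n n' hn hn' => main_bound hn hn'⟩, ?_⟩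
  · refine ⟨0, fun i => ⟨fun _ => 0, fun _ => 0, fun _ _ => ⟨rfl, rfl⟩, by simp, ?_, ?_⟩⟩
    · simp; positivity
    · intro l; simp
  · intro n hn
    obtain ⟨i, h1, h2⟩ := exists_level hn
    have hn1 : (1:ℝ) ≤ n := by exact_mod_cast hn
    have hlog : 0 ≤ Real.log n := Real.log_nonneg hn1
    refine le_trans (ENNReal.ofReal_le_ofReal ?_) (det_ge (n := n) (i := i) h1)
    have hσ : sB i = 1 / ((2:ℝ) ^ i) ^ 2 := by
      unfold sB
      rw [one_div_pow, ← pow_mul, mul_comm i 2, pow_mul]; norm_num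
    rw [hσ, div_div]
    refine one_div_le_one_div_of_le (by positivity) ?_
    have : ((2:ℝ) ^ i) ^ 2 ≤ (1 + 3 * Real.log n) ^ 2 := pow_le_pow_left₀ (by positivity) h2 2
    linarith
  · intro α hα
    set δ : ℝ := 1 - α with hδ
    have hδ0 : 0 < δ := by rw [hδ]; linarith
    refine ⟨4436 * 432 ^ 3 * Real.exp (1 / (4 * δ)), by positivity, fun n hn => ?_⟩
    have hn1 : (1:ℝ) ≤ n := by exact_mod_cast hn
    have hn0 : (0:ℝ) < n := by linarith
    have key : 4436 * 432 ^ 3 * Real.exp (Real.sqrt (Real.log n)) / n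
        ≤ 4436 * 432 ^ 3 * Real.exp (1 / (4 * δ)) * (n:ℝ) ^ (-α) := by
      have h1 := exp_sqrt_le hδ0 hn
      have h2 : (n:ℝ) ^ (-α) = (n:ℝ) ^ δ / n := by
        rw [eq_div_iff hn0.ne']
        nth_rewrite 2 [← Real.rpow_one (n:ℝ)]
        rw [← Real.rpow_add hn0]
        congr 1
        rw [hδ]; ring
      rw [h2]
      calc 4436 * 432 ^ 3 * Real.exp (Real.sqrt (Real.log n)) / n
          ≤ 4436 * 432 ^ 3 * (Real.exp (1 / (4 * δ)) * (n:ℝ) ^ δ) / n := by gcongr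
        _ = _ := by ring
    constructor
    · exact (main_bound hn le_rfl).trans (mul_le_mul_left (ENNReal.ofReal_le_ofReal key) _)
    · exact (main_bound hn (by omega)).trans (mul_le_mul_left (ENNReal.ofReal_le_ofReal key) _)

end Pool.Agent.Results.MP_c1e612_an.UniformGain
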